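import Pool.Agent.Run7.h43.LT.Cor

/-!
# MP_557161_ag: universal defect polynomials for the formula of Tate on products

For a smooth projective variety `Z` over an algebraic closure of the field with `p` elements the
defect `δ_c(Z) ≥ 0` is the order of the pole at `s = c` of the zeta function of a model of `Z` over
a sufficiently large finite field, minus the rank of the group of cycles of codimension `c` modulo
numerical equivalence. The formula of Tate says that `δ_c(Z) = 0`.

Let `𝒳` be a set of varieties such that the formula of Tate holds for the products `X × X'` of any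
two members, for example the set of all curves, or the set of all products of elliptic curves (known
cases of the conjecture). Nothing is assumed on the other varieties below.

1. **The law.** For **every** variety `Y` there are monic polynomials `D_j` with **integral**
   coefficients, where `D_j` divides the characteristic polynomial `P_j` of Frobenius (over one
   finite field) on `H^j(Y)`, which give the defects of **all** products `X × Y`, `X ∈ 𝒳`:
   `δ_c(X × Y)` is the number of the pairs `(α, β)` of an eigenvalue `α` of Frobenius on `H^i(X)`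
   and a root `β` of `D_j`, `i + j = 2 c`, with `α β = q ^ c` over large finite fields (`β` is
   replaced by its power for the extension of the finite field). So `δ_c(X × Y)` is an additive
   function of the zeta function of `X`, and the ranks of the groups of cycles on all `X × Y` are
   the numbers of pairs with the roots of `P_j / D_j`.
2. **Finite check.** For every variety `Y₀` there is a finite subset `𝒳₀` of `𝒳` such that, for
   **all** varieties `Y` whose Frobenius eigenvalues occur on `Y₀` up to powers of `q` (over large
   finite fields), the formula of Tate holds for `X × Y` for all `X ∈ 𝒳` if it holds for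
   `X ∈ 𝒳₀`.
3. **Transfer.** If the eigenvalues of `X' ∈ 𝒳` occur up to powers of `q` on members of a subset
   `𝒳₀` of `𝒳`, and the formula holds for `X × Y` for all `X ∈ 𝒳₀`, then it holds for `X' × Y`.
4. **Transitivity.** Let `Y` be a variety whose Frobenius eigenvalues are of the form `q ^ c / α`
   with eigenvalues `α` of members of `𝒳`. If the formula of Tate holds for `X × Y` and for `X × Z`
   for all `X ∈ 𝒳`, then it holds for `Y × Z`, in all codimensions (in particular for `Y × Y`).

The proof: the operators `H(X) → H(Y)` given by algebraic cycles on `X × Y`, `X ∈ 𝒳`, are, up to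
numerically trivial ones, the operators into the image of a projector `e` of `H(Y)` which is given
by a rational cycle and factors through members of `𝒳` (a projector of maximal rank; the algebras
of correspondences of the members are semisimple). By the hypothesis, `e ∘ f` is algebraic for all
Tate classes `f` on `X × Y`, so the defect counts the generalised Tate classes on `X × Y` with
values in the kernel of `e`, and `D_j` is the characteristic polynomial of Frobenius on the kernel
of `e` in `H^j(Y)`; it is rational since `e` is given by a cycle with rational coefficients.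

The Riemann hypothesis and the integrality of the polynomials `P_j` (Deligne) are hypotheses.
-/

set_option autoImplicit false

open CategoryTheory AlgebraicGeometry

universe u v

namespace Pool.Agent.Results.MP_557161_ag.LinearLaw

open Pool.Agent.H914 Pool.Agent.H914.VarClass Pool.Agent.H914.VarClass.Obj
  Pool.Agent.H914.WeilCohomology Pool.Agent.W534 Run7.h43.LT

/-- **Universal defect polynomials**, and their consequences for the formula of Tate on products. -/
theorem result {k : Type u} [Field k] {𝒱 : VarClass k} {ops : CycleOps 𝒱}
    {W : WeilCohomology.{u, v} ops} [IsAlgClosed W.K] {p : ℕ} (hp : p.Prime)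
    (Φ : FrobSystem W p) (σ : W.K →+* ℂ) (hRH : ∀ Z, RiemannHyp Φ σ Z)
    (hint : ∀ Z, IntegralPolys Φ σ Z) (𝒳 : Set 𝒱.Obj)
    (h𝒳 : ∀ X ∈ 𝒳, ∀ X' ∈ 𝒳, PoleTimes Φ σ X X') :
    (∀ Y, ∃ t D, DividePolys Φ σ Y t D ∧ GivesDefects Φ σ 𝒳 Y t D) ∧
    (∀ Y₀, ∃ 𝒳₀ ⊆ 𝒳, 𝒳₀.Finite ∧ ∀ Y, EigenvaluesAmong Φ σ {Y₀} Y →
      (∀ X ∈ 𝒳₀, PoleTimes Φ σ X Y) → ∀ X ∈ 𝒳, PoleTimes Φ σ X Y) ∧
    (∀ 𝒳₀ ⊆ 𝒳, ∀ X' ∈ 𝒳, EigenvaluesAmong Φ σ 𝒳₀ X' →
      ∀ Y, (∀ X ∈ 𝒳₀, PoleTimes Φ σ X Y) → PoleTimes Φ σ X' Y) ∧
    (∀ Y, DualEigenvaluesAmong Φ σ 𝒳 Y → (∀ X ∈ 𝒳, PoleTimes Φ σ X Y) →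
      ∀ Z, (∀ X ∈ 𝒳, PoleTimes Φ σ X Z) → PoleTimes Φ σ Y Z) :=
  ⟨fun Y => integral_law hp.one_lt hRH h𝒳 Y (hint Y), fun Y₀ => finite_check hp.one_lt hRH h𝒳 Y₀,
    fun _ h0 _ hX' hcov Y hY => transfer hp.one_lt hRH h𝒳 h0 hX' hcov Y hY,
    fun _ hcov hY _ hZ => transitive hp.one_lt hRH h𝒳 hcov hY hZ⟩

end Pool.Agent.Results.MP_557161_ag.LinearLaw
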