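import Pool.Agent.Run7.h142.CE.Pole

/-!
# The poles of the zeta functions of all products of curves are decided by four curves at `s = 2`

The setting. Let `C j` be smooth projective varieties over the algebraic closure of the field with `p`
elements which are like all curves (`IsComplete`): the cohomology is generated by the classes of
algebraic cycles and by `H¹`, an algebraic class defines a nondegenerate form on `H¹`, and each
possible Newton function of weight one occurs in `H¹` of one of the `C j`. By the theorem of Honda this
is true for the family of all curves, and of all abelian varieties. Let `X i` be any smooth projective
varieties whose cohomology is generated, as an algebra, by the classes of algebraic cycles and by the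
cohomology in the degrees `d ≤ D i`, for instance with `D i = dim X i` (hard Lefschetz theorem). The
*small products* are
* the products `X i × C j × ... × C j'` with `m ≤ D i` factors `C j`, with the integer `m`,
* the products `C j₁ × C j₂ × C j₃ × C j₄` with the integer `m = 2`.

The formula of Tate at the integer `m` says that the order of the pole at `m` of the zeta function of
`Y` (over all sufficiently large finite fields) is the rank of the group of the cycles of codimension
`m` on `Y` modulo numerical equivalence (`PoleFormula`).

**Theorem.**
1. *The formula of Tate holds at all integers for all varieties which are dominated by products of any
   number of the varieties `X i` and `C j` if and only if it holds for the small products, each at the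
   one integer `m`.*
2. *If Frobenius is semisimple on `H¹ (C j)` (for curves and abelian varieties a theorem of Weil) and on
   `H ^ d (X i)` for `d ≤ D i` then the formula of Tate holds at all integers for all dominated varieties
   if and only if the Tate conjecture holds for the small products in the codimension `m`* (each
   cohomology class of degree `2 m` on which Frobenius is `q ^ m` is a combination of classes of
   cycles). In general this is true with the eigenspace replaced by the generalized eigenspace.

In particular:
* (no `X i`) **the formula of Tate is true at all integers for all abelian varieties, and for all
  varieties which are dominated by products of curves, if and only if the order of the pole at `s = 2` of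
  the zeta function is the rank of the group of cycles of codimension two modulo numerical equivalence,
  for the products of four curves; and if and only if the Tate conjecture is true in codimension two
  for the products of four curves.** (At `s = 1` the formula is a theorem of Tate for products of
  curves.) So neither homological and numerical equivalence nor other codimensions have to be considered
  for the right hand side.
* (surfaces) The formula of Tate for all products of any number of surfaces, curves and abelian
  varieties follows from the formula at `s = m` for the products of a surface and `m ≤ 2` curves.
* The formula at all integers for all products of varieties of dimension `≤ n` (`n ≥ 2`) follows from the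
  formula at the integers `m ≤ n` for the varieties of dimension `≤ 2 n`.

The Riemann hypothesis (the theorem of Deligne) is a hypothesis (`RiemannHyp`); the cohomology has
coefficients in an algebraically closed field, for instance an algebraic closure of `ℚ_ℓ`.

The proof. By `MP_0f183b_ag.SmallProductsSuffice` the Tate conjecture with semisimplicity holds for all
dominated varieties if it holds for the small products (see there for the argument). Here moreover the
equality of homological and numerical equivalence is proved for the dominated varieties, from the same
hypothesis: on the products of the `X i` and `C j` by the splitting of the Tate classes in the tensor
product of the cohomology with any space with a unipotent operator (as in the starting file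
`TH121/KT`), and on the dominated varieties by the projection formula (`homEqNum_dominated`). The
converse uses the criterion of Tate: the formula for the order of the pole is equivalent to the Tate
conjecture and to the equality of homological and numerical equivalence, and implies
semisimplicity.

Earlier work: Tate, Honda, Milne (Motives over finite fields; Lefschetz motives and the Tate conjecture),
Hazama (On the general Hodge conjecture for abelian varieties of CM-type: codimension two suffices). For
abelian varieties the reduction of the Tate conjecture to codimension two can be expected from the
results of Milne and Hazama together. The equivalence for the poles (with one integer for each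
small product), and the case of products of arbitrary varieties are new as far as I know.
-/

set_option autoImplicit false

open CategoryTheory AlgebraicGeometry

universe u v w w'

namespace Pool.Agent.Results.MP_557161_ag.PolesFromSmallProducts

open Pool.Agent.H914 Pool.Agent.W534 Pool.Agent.Run7.h142.GT Pool.Agent.Run7.h142.CE VarClass Obj
  WeilCohomology

/-- **The formula of Tate for the poles of the zeta functions of all varieties dominated by products of
the `X i` and `C j` is equivalent to the formula for small products, each at one integer, and to the
Tate conjecture for these products in one codimension.** -/
theorem result {k : Type u} [Field k] {𝒱 : VarClass k} {ops : CycleOps 𝒱}
    (W : WeilCohomology.{u, v} ops) [IsAlgClosed W.K] (τ : W.K →+* ℂ) (p : ℕ) [Fact p.Prime]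
    (Φ : FrobSystem W p) (hRH : ∀ Z : 𝒱.Obj, RiemannHyp Φ τ Z) (K : Type)
    [Field K] [CharZero K] [Algebra.IsAlgebraic ℚ K] (σ : K →+* W.K) (c : K →+* K)
    (Λ : AddSubgroup ℝ) (hΛ : (1 / 2 : ℝ) ∈ Λ) {J : Type w} (C : J → 𝒱.Obj)
    (hC : IsComplete Φ σ c Λ C) {I : Type w'} (X : I → 𝒱.Obj) (D : I → ℕ)
    (hX : ∀ i, IsGenerated Φ σ c Λ (D i) (X i)) :
    (PolesForDominated Φ τ C X ↔ PolesForSmall Φ τ C X D) ∧
    (PolesForDominated Φ τ C X ↔ StrongTateForSmall Φ C X D) ∧
    ((∀ j, IsSemisimple Φ 1 (C j)) → (∀ i, IsSemisimple Φ (D i) (X i)) →
      (PolesForDominated Φ τ C X ↔ TateForSmall Φ C X D)) :=
  ⟨pole_iff hRH hΛ hC hX, pole_iff_tate_small hRH hΛ hC hX, pole_iff_one hRH hΛ hC hX⟩

end Pool.Agent.Results.MP_557161_ag.PolesFromSmallProducts
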