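import Pool.Agent.Run7.h142.GP.Main
import Pool.Agent.Run7.h142.GT.Gens

/-!
# Poles of zeta functions: the formula of Tate for all products of given varieties follows from the
# formula at one point for finitely many products

Let `X j` (`j < s`) be smooth projective varieties over an algebraic closure of the field with `p`
elements whose cohomology is generated, as an algebra, by algebraic cycles and by the cohomology in one
degree `d j`, for instance abelian varieties and curves (`d j = 1`), K3 surfaces (`d j = 2`), cubic
fourfolds (`d j = 4`), complete intersections. The Frobenius eigenvalues in the degree `d j` which do
not come from algebraic cycles are, up to roots of unity, `q ^ (d j / 2)` times roots of the conjugates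
of one number `α j` in a CM field `E (f j)`; all complex absolute values of `α j` are one
(`HaveWeilNumbers`, `IsPNumber`; `α j = π ^ 2 / q` for an abelian variety with the Weil number `π`).
Any number of the `α j` may belong to the same field, and the Newton polygons of the `X j` are
arbitrary. We assume only that the finitely many CM fields `E k` have no rigid pairs
(`NoRigidPairsOver`): for an embedding `x` of `E k` and an embedding `y` of `E l` which is not `x` or
its complex conjugate, some automorphism of the algebraic closure of `ℚ` fixes `x` and maps `y` to its
complex conjugate. This is true for one imaginary quadratic field, for different quadratic fields, and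
for generic CM fields of any degree (see `MP_950c68_ag.RelationLattice` for a criterion with
discriminants).

The `p`-adic valuations of the numbers `α j` which belong to `E k`, normalized by the degree of the
field of definition, are functions on the set of the embeddings of `E k` (`slope`). The linear
relations with integral coefficients between them form the group `relations p α n k`. A relation
`c` has the degree `deg c = ∑ |c j| d j`, and it has the test product `X_c`, the product of `|c j|`
copies of each `X j`. The relations of odd degree have test products only in pairs.

The formula of Tate at the integer `m` says that the order of the pole at `m` of the zeta function of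
`Z` (over all sufficiently large finite fields) is the rank of the group of the cycles of codimension
`m` modulo numerical equivalence (`PoleFormula`). The defect is the difference of the two numbers.

**Theorem.** Let `B k` be any set of generators of the group `relations p α n k`.
1. The set `B k` can be chosen with `# {j | f j = k} - r k` elements, where `r k` is the rank of the
   normalized valuations of the numbers in `E k`.
2. The formula of Tate holds at all integers for **all** products of copies of the `X j` (with any
   multiplicities, and also with varieties all of whose cohomology is algebraic) **if and only if** it
   holds at **one** integer for each of the following varieties: for `X j × X j` at `d j`, for the test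
   product `X_c` at `deg c / 2`, for all `c ∈ B k` of even degree, and for `X_c × X_c'` at
   `(deg c + deg c') / 2`, for all `c ∈ B k`, `c' ∈ B k'` of odd degree.
3. If the degrees of all `c ∈ B k` are even and the formula holds for these products then for **all**
   products `Z` as in 2. and **all** smooth projective varieties `U` whose slopes are determined by a
   field `L` (for instance the field generated by the Frobenius eigenvalues of `U` and their
   conjugates), if there are no rigid pairs over `L`: the ranks of the cycles modulo numerical
   equivalence and the defects are `ρ_c (Z × U) = ∑ ρ_i (Z) ρ_j (U)` and
   `δ_c (Z × U) = ∑ ρ_i (Z) δ_j (U)`, the sums over `i + j = c`. So the formula holds for `Z × U` in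
   codimension `c` if and only if it holds for `U` in all codimensions `c - i` with `ρ_i (Z) ≠ 0`. Nothing
   else is assumed on `U`.
4. The degrees of all relations are even if all `d j` are even, or if for each `k` there is one embedding
   of `E k` for which the valuations of the Weil numbers in `E k` are integers (`v (q) = 1`).

So, besides the `X j × X j`, at most as many pole orders as there are varieties have to be compared
with ranks, and these are the orders of finitely many zeta functions at one point each; the conclusion is
about all integral points and infinitely many zeta functions. (For abelian varieties the formula for
`X j × X j` at `1` is the theorem of Tate, and it is also known for the test products of relations of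
degree two. So if these relations generate then the conclusion is unconditional; for instance if the
valuations are linearly independent.) Examples: if `A` is an abelian threefold whose Weil number belongs
to an imaginary quadratic field `E` (slopes `1/3`, `2/3`) and `C` is an ordinary elliptic curve with
the same field then the formula of Tate for all products `A ^ a × C ^ b` at all integers is equivalent to
the formula for `A × A × A × C` at the point `2`. For K3 surfaces of finite height the valuations are
nonzero at one place and its conjugate only; so the formula for all products of K3 surfaces (without
rigid pairs) follows from the formula for products of copies of two surfaces with the same field and the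
same place, at the middle point.

The Riemann hypothesis (the theorem of Deligne) is a hypothesis of parts 2 and 3.

The proof. By Tate, the formula at `m` is equivalent to the Tate conjecture and the equality of
homological and numerical equivalence in codimension `m`. By the theorem `MP_950c68_ag.RelationLattice`
the Tate conjecture for the test products gives the Tate conjecture with semisimplicity for all products;
the equality of the two equivalence relations follows from the splitting of the Tate classes on the
products with arbitrary spaces (starting file `TH121/KT`). The third part is adapted from the starting
file `TH132/P` (almost all members of families with large monodromy); the test products are new.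

Known before: the formula for powers of one abelian variety and products with independent fields
(Zarhin, Lenstra and Zarhin, the starting files); several Weil numbers with linearly independent
valuations (`SeveralWeilNumbers`, there with the count of the slope types).
-/

set_option autoImplicit false

open CategoryTheory AlgebraicGeometry NumberField

universe u v

namespace Pool.Agent.Results.MP_557161_ag.RelationLatticePoles

open Pool.Agent.H914 Pool.Agent.W534 Pool.Agent.TH132.A Pool.Agent.TH121.KT
  Pool.Agent.Run7.h142.LT Pool.Agent.Run7.h142.GT Pool.Agent.Run7.h142.GP VarClass Obj
  WeilCohomology

/-- **The formula of Tate for the poles of the zeta functions of all products of given varieties is the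
formula at one point for the test products of generators of the groups of relations.** -/
theorem result :
    (∀ (p : ℕ) [Fact p.Prime] (κ : Type) (E : κ → Type) [∀ k, Field (E k)] (s : ℕ)
      (f : Fin s → κ) (α : ∀ j, E (f j)) (n : Fin s → ℕ),
      ∃ B : κ → Finset (Fin s → ℤ), (∀ k, Generates (B k : Set _) (IsRelation p α n k)) ∧
        ∀ k, (B k).card + slopeRank p α n k = Nat.card {j // f j = k}) ∧
    (∀ {k : Type u} [Field k] {𝒱 : VarClass k} {ops : CycleOps 𝒱}
      (W : WeilCohomology.{u, v} ops) [IsAlgClosed W.K] (σ : W.K →+* ℂ) (p : ℕ) [Fact p.Prime]
      (Φ : FrobSystem W p) (κ : Type) [Fintype κ] (E : κ → Type) [∀ k, Field (E k)]
      [∀ k, NumberField (E k)] [∀ k, IsCMField (E k)] (s : ℕ) (f : Fin s → κ)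
      (α : ∀ j, E (f j)) (X : Fin s → 𝒱.Obj) (d e : Fin s → ℕ) (B : κ → Set (Fin s → ℤ)),
      (∀ Z : 𝒱.Obj, RiemannHyp Φ σ Z) → IsPNumber p α d →
      HaveWeilNumbers (K := fun j => E (f j)) Φ α X d e →
      (∀ k, Generates (B k) (IsRelation p α (degs Φ X e) k)) →
        (NoRigidPairsOver E ⊥ → ((∀ Z, IsProduct W X Z → ∀ m ≤ Z.dim, PoleFormula Φ σ Z m) ↔
          ForGenerators (PoleFormula Φ σ) X d B)) ∧
        ∀ L : IntermediateField ℚ (AlgebraicClosure ℚ), NoRigidPairsOver E L →
          (∀ k, ∀ c ∈ B k, Even (degOf d c)) → ForGenerators (PoleFormula Φ σ) X d B →
          ∀ Z, IsProduct W X Z → ∀ (ι : AlgebraicClosure ℚ →+* PadicAlgCl p) (U : 𝒱.Obj),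
          FrobeniusSlopes Φ ι L U → DefectsOfTimes Φ σ Z U) ∧
    ∀ (p : ℕ) [Fact p.Prime] (κ : Type) (E : κ → Type) [∀ k, Field (E k)] (s : ℕ)
      (f : Fin s → κ) (α : ∀ j, E (f j)) (d n : Fin s → ℕ),
      ((∀ j, Even (d j)) ∨ HasIntegralPlaces p α d n) →
        ∀ k c, IsRelation p α n k c → Even (degOf d c) := by
  refine ⟨?_, ?_, ?_⟩
  · intro p _ κ E _ s f α n
    obtain ⟨B, h1, h2⟩ := exists_generators p α n
    refine ⟨B, fun k c => ?_, h2⟩
    rw [h1 k]
    exact Iff.rfl
  · intro k _ 𝒱 ops W _ σ p _ Φ κ _ E _ _ _ s f α X d e B hRH hα hX hB
    exact ⟨fun hE => pole_products_iff hRH hX hα hE hB, fun L hE hev h Z hZ ι U hU =>
      pole_times hRH hX hα hE h hB hev hZ hU⟩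
  · intro p _ κ E _ s f α d n h k c hc
    rcases h with h | h
    · exact even_of_all h c
    · exact even_of_places h k c hc

end Pool.Agent.Results.MP_557161_ag.RelationLatticePoles
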